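import Pool.Agent.TH703.HU.Stm
import Pool.Agent.TH703.Cone.Trans
import Pool.Agent.TH73.MI.Basic

set_option autoImplicit false

/-!
# Project HU, B4: a set with zero `y`-divergence is cylindrical
-/

open MeasureTheory Set Metric Filter Topology
open scoped ENNReal Real ContDiff Manifold

namespace Pool.Agent.TH75.HU

open Pool.Agent.TH304.MI Pool.Agent.TH703.HU

section gen

variable {E : Type*} [NormedAddCommGroup E] [InnerProductSpace ℝ E] [FiniteDimensional ℝ E]
variable [MeasurableSpace E] [BorelSpace E]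

/-- the derivative of translations of a smooth function, integrated over a set -/
lemma aux0 {Ω A : Set E} {v : E} (h : ∀ f : E → ℝ, ContDiff ℝ 1 f → HasCompactSupport f →
      tsupport f ⊆ Ω → ∫ x in A, fderiv ℝ f x v = 0) {ψ : E → ℝ} (hψ : ContDiff ℝ 1 ψ)
    (hc : HasCompactSupport ψ)
    (hsub : ∀ x ∈ tsupport ψ, ∀ t ∈ Icc (0 : ℝ) 1, x + t • v ∈ Ω) :
    (∫ x in A, ψ x) - ∫ x in A, ψ (x - v) ≤ 0 := by
  obtain ⟨C, hC⟩ : ∃ C, ∀ x, ‖fderiv ℝ ψ x‖ ≤ C :=
    (hc.fderiv ℝ).exists_bound_of_continuous (hψ.continuous_fderiv (by norm_num))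
  have hC0 : 0 ≤ C := (norm_nonneg _).trans (hC 0)
  obtain ⟨R, hR⟩ : ∃ R : ℝ, tsupport ψ ⊆ closedBall 0 R := hc.isBounded.subset_closedBall 0
  have hfd0 : ∀ x, R < ‖x‖ → fderiv ℝ ψ x = 0 := by
    intro x hx
    by_contra hne
    have h2 : x ∈ tsupport ψ := support_fderiv_subset ℝ (f := ψ) hne
    have h3 := hR h2
    rw [mem_closedBall_zero_iff] at h3
    linarith
  -- derivative of the function of `t`
  have hder : ∀ t : ℝ, HasDerivAt (fun t : ℝ => ∫ x in A, ψ (x - t • v))
      (∫ x in A, -(fderiv ℝ ψ (x - t • v) v)) t := by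
    intro t
    refine (hasDerivAt_integral_of_dominated_loc_of_deriv_le (μ := volume.restrict A)
      (F := fun t x => ψ (x - t • v)) (F' := fun t x => -(fderiv ℝ ψ (x - t • v) v))
      (bound := fun x => (closedBall (0 : E) (R + (|t| + 1) * ‖v‖)).indicator
        (fun _ => C * ‖v‖) x)
      (s := ball t 1) (ball_mem_nhds t one_pos) ?_ ?_ ?_ ?_ ?_ ?_).2
    · exact Eventually.of_forall fun s =>
        (hψ.continuous.comp (by fun_prop)).aestronglyMeasurable
    · have h1 : Continuous (fun x : E => ψ (x - t • v)) := hψ.continuous.comp (by fun_prop)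
      have h2 : HasCompactSupport (fun x : E => ψ (x - t • v)) := by
        have := hc.comp_homeomorph (Homeomorph.subRight (t • v))
        exact this
      exact (h1.integrable_of_hasCompactSupport h2).integrableOn
    · have h1 : Continuous (fun x : E => fderiv ℝ ψ (x - t • v) v) :=
        ((hψ.continuous_fderiv (by norm_num)).comp (by fun_prop)).clm_apply continuous_const
      exact h1.neg.aestronglyMeasurable
    · refine Eventually.of_forall fun x s hs => ?_
      rw [norm_neg]
      by_cases hx : x ∈ closedBall (0 : E) (R + (|t| + 1) * ‖v‖)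
      · rw [indicator_of_mem hx]
        calc ‖fderiv ℝ ψ (x - s • v) v‖ ≤ ‖fderiv ℝ ψ (x - s • v)‖ * ‖v‖ :=
              ContinuousLinearMap.le_opNorm _ _
          _ ≤ C * ‖v‖ := by gcongr; exact hC _
      · rw [indicator_of_notMem hx]
        rw [mem_closedBall, dist_zero_right, not_le] at hx
        have h3 : ‖s • v‖ ≤ (|t| + 1) * ‖v‖ := by
          rw [norm_smul, Real.norm_eq_abs]
          have h4 : |s| ≤ |t| + 1 := by
            rw [mem_ball, Real.dist_eq] at hs
            have := abs_sub_abs_le_abs_sub s t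
            linarith
          gcongr
        have h5 : R < ‖x - s • v‖ := by
          have := norm_sub_norm_le x (s • v)
          linarith
        rw [hfd0 _ h5]; simp
    · rw [integrable_indicator_iff measurableSet_closedBall]
      refine integrableOn_const ?_ ?_
      · exact ((Measure.restrict_apply_le _ _).trans_lt measure_closedBall_lt_top).ne
      · exact enorm_ne_top
    · refine Eventually.of_forall fun x s _ => ?_
      have h1 : HasDerivAt (fun s : ℝ => x - s • v) (-v) s := by
        simpa using ((hasDerivAt_id s).smul_const v).const_sub x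
      have h2 := ((hψ.differentiable (by norm_num)) (x - s • v)).hasFDerivAt.comp_hasDerivAt s h1
      rw [map_neg] at h2
      exact h2
  -- mean value theorem
  obtain ⟨t, ht, hslope⟩ := exists_hasDerivAt_eq_slope
    (fun t : ℝ => ∫ x in A, ψ (x - t • v)) (fun t => ∫ x in A, -(fderiv ℝ ψ (x - t • v) v))
    (zero_lt_one (α := ℝ))
    (fun t _ => (hder t).continuousAt.continuousWithinAt) (fun t _ => hder t)
  simp only [zero_smul, sub_zero, one_smul, div_one] at hslope
  have hmain : ∫ x in A, fderiv ℝ ψ (x - t • v) v = 0 := by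
    let f : E → ℝ := fun x => ψ (x - t • v)
    have hf : ContDiff ℝ 1 f := hψ.comp (contDiff_id.sub contDiff_const)
    have hcf : HasCompactSupport f := hc.comp_homeomorph (Homeomorph.subRight (t • v))
    have hfs : tsupport f ⊆ Ω := by
      have e1 : tsupport f ⊆ (fun x => x - t • v) ⁻¹' tsupport ψ := by
        refine closure_minimal ?_ ((isClosed_tsupport ψ).preimage (by fun_prop))
        intro x hx
        apply subset_tsupport
        rw [Function.mem_support] at hx ⊢
        exact hx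
      intro x hx
      have h2 := hsub _ (e1 hx) t ⟨ht.1.le, ht.2.le⟩
      simpa using h2
    have h6 := h f hf hcf hfs
    have hdiv : ∀ x, fderiv ℝ f x v = fderiv ℝ ψ (x - t • v) v := by
      intro x
      have h7 : HasFDerivAt f (fderiv ℝ ψ (x - t • v)) x := by
        have h8 : HasFDerivAt (fun x : E => x - t • v) (ContinuousLinearMap.id ℝ E) x :=
          (hasFDerivAt_id x).sub_const _
        have h9 := ((hψ.differentiable (by norm_num)) (x - t • v)).hasFDerivAt.comp x h8
        rw [ContinuousLinearMap.comp_id] at h9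
        exact h9
      rw [h7.fderiv]
    simp_rw [hdiv] at h6
    exact h6
  rw [integral_neg] at hslope
  linarith
/-- no mass is moved out of the set along `v` -/
theorem trans0 {Ω A : Set E} {v : E} (hΩo : IsOpen Ω) (hΩc : Convex ℝ Ω)
    (hΩb : Bornology.IsBounded Ω) (hA : MeasurableSet A) (hAΩ : A ⊆ Ω)
    (h : ∀ f : E → ℝ, ContDiff ℝ 1 f → HasCompactSupport f →
      tsupport f ⊆ Ω → ∫ x in A, fderiv ℝ f x v = 0) :
    volume {x | x ∈ A ∧ x + v ∈ Ω \ A} = 0 := by
  rw [← nonpos_iff_eq_zero]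
  have hΩfin : volume Ω ≠ ⊤ := hΩb.measure_lt_top.ne
  set T : Set E := {x | x ∈ A ∧ x + v ∈ Ω \ A} with hT
  have hTm : MeasurableSet T :=
    hA.inter ((measurable_id.add_const v) (hΩo.measurableSet.diff hA))
  have hTfin : volume T ≠ ⊤ :=
    ne_top_of_le_ne_top hΩfin (measure_mono fun x hx => hAΩ hx.1)
  have hshift : ∀ S : Set E, volume {x : E | x - v ∈ S} = volume S := by
    intro S
    have : {x : E | x - v ∈ S} = (fun x => x + (-v)) ⁻¹' S := by
      ext x; simp [sub_eq_add_neg]
    rw [this, measure_preimage_add_right]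
  refine ENNReal.le_of_forall_pos_le_add fun δ hδ _ => ?_
  have hδ' : (ENNReal.ofReal (δ / 2)) ≠ 0 := by
    have : (0 : ℝ) < δ / 2 := by positivity
    simpa using this
  obtain ⟨K, hKT, hKc, hK⟩ := hTm.exists_isCompact_sdiff_lt hTfin hδ'
  have hKfin : volume K ≠ ⊤ := hKc.measure_lt_top.ne
  obtain ⟨U₀, hKU₀, hU₀o, -, hU₀⟩ := hKc.measurableSet.exists_isOpen_sdiff_lt hKfin hδ'
  -- the compact set `K + [0, 1] v`
  set K' : Set E := (fun p : E × ℝ => p.1 + p.2 • v) '' (K ×ˢ Icc (0 : ℝ) 1) with hK'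
  have hK'c : IsCompact K' := (hKc.prod isCompact_Icc).image (by fun_prop)
  have hK'Ω : K' ⊆ Ω := by
    rintro _ ⟨⟨x, t⟩, ⟨hx, ht⟩, rfl⟩
    have h1 := hKT hx
    have h2 := hΩc (hAΩ h1.1) h1.2.1 (sub_nonneg.2 ht.2) ht.1 (by ring)
    simp only at h2 ⊢
    convert h2 using 1
    module
  obtain ⟨κ, hκ, hκΩ⟩ := hK'c.exists_cthickening_subset_open hΩo hK'Ω
  set U : Set E := U₀ ∩ thickening κ K with hU
  have hUo : IsOpen U := hU₀o.inter isOpen_thickening
  have hKU : K ⊆ U := subset_inter hKU₀ (self_subset_thickening hκ K)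
  have hUd : volume (U \ K) < ENNReal.ofReal (δ / 2) :=
    (measure_mono (sdiff_subset_sdiff_left inter_subset_left)).trans_lt hU₀
  obtain ⟨f, hf0, hf1, hf⟩ := exists_contMDiffMap_zero_one_of_isClosed (n := 1)
    𝓘(ℝ, E) (s := Uᶜ) (t := K) hUo.isClosed_compl hKc.isClosed
    (Set.disjoint_left.2 fun x hx hxK => hx (hKU hxK))
  have hfd : ContDiff ℝ 1 (f : E → ℝ) := f.contMDiff.contDiff
  have hts : tsupport (f : E → ℝ) ⊆ cthickening κ K := by
    refine closure_minimal ?_ isClosed_cthickening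
    intro x hx
    by_contra hne
    apply hx
    apply hf0
    intro hxU
    exact hne (thickening_subset_cthickening κ K hxU.2)
  have hfc : HasCompactSupport (f : E → ℝ) :=
    hKc.cthickening.of_isClosed_subset (isClosed_tsupport _) hts
  have hmain := aux0 h hfd hfc (by
    intro x hx t ht
    apply hκΩ
    have h1 := hts hx
    rw [hKc.cthickening_eq_biUnion_closedBall hκ.le, mem_iUnion₂] at h1
    obtain ⟨y, hy, hxy⟩ := h1
    have h2 : y + t • v ∈ K' := ⟨(y, t), ⟨hy, ht⟩, rfl⟩
    refine closedBall_subset_cthickening h2 κ ?_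
    rw [mem_closedBall] at hxy ⊢
    simpa using hxy)
  have hfi : Integrable (f : E → ℝ) := hfd.continuous.integrable_of_hasCompactSupport hfc
  have hfi2 : Integrable (fun x : E => f (x - v)) := hfi.comp_sub_right v
  have hUfin : volume U ≠ ⊤ := by
    have : volume U ≤ volume K + volume (U \ K) := by
      calc volume U = volume (K ∪ (U \ K)) := by rw [union_sdiff_cancel hKU]
        _ ≤ _ := measure_union_le _ _
    exact ne_top_of_le_ne_top (ENNReal.add_ne_top.2 ⟨hKfin, hUd.ne_top⟩) this
  have hKA : K ⊆ A := fun x hx => (hKT hx).1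
  have h1 : volume.real K ≤ ∫ x in A, f x := by
    calc volume.real K = ∫ x in K, (1 : ℝ) := by simp
      _ = ∫ x in K, f x := setIntegral_congr_fun hKc.measurableSet fun x hx => (hf1 hx).symm
      _ ≤ ∫ x in A, f x := setIntegral_mono_set hfi.integrableOn
          (Eventually.of_forall fun x => (hf x).1) (LE.le.eventuallyLE hKA)
  have hSm : MeasurableSet {x : E | x - v ∈ U} := (measurable_id.sub_const v) hUo.measurableSet
  have h2 : ∫ x in A, f (x - v) ≤ volume.real (U \ K) := by
    have hm : MeasurableSet {x | x ∈ A ∧ x - v ∈ U} := hA.inter hSm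
    have hle : volume {x | x ∈ A ∧ x - v ∈ U} ≤ volume (U \ K) := by
      rw [← hshift (U \ K)]
      refine measure_mono ?_
      rintro x ⟨hx1, hx2⟩
      refine ⟨hx2, fun hx3 => ?_⟩
      have := (hKT hx3).2.2
      rw [sub_add_cancel] at this
      exact this hx1
    have hfin2 : volume {x | x ∈ A ∧ x - v ∈ U} ≠ ⊤ := ne_top_of_le_ne_top hUd.ne_top hle
    calc ∫ x in A, f (x - v) = ∫ x in A, ({x : E | x - v ∈ U}).indicator
          (fun x => f (x - v)) x := by
          congr 1; ext x
          by_cases hx : x - v ∈ U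
          · rw [indicator_of_mem (show x ∈ {x : E | x - v ∈ U} from hx)]
          · rw [indicator_of_notMem (show x ∉ {x : E | x - v ∈ U} from hx), hf0 hx]; rfl
      _ = ∫ x in A ∩ {x : E | x - v ∈ U}, f (x - v) := setIntegral_indicator hSm
      _ ≤ ∫ x in A ∩ {x : E | x - v ∈ U}, (1 : ℝ) :=
          setIntegral_mono_on hfi2.integrableOn (integrableOn_const hfin2 (by simp)) hm
            fun x _ => (hf _).2
      _ = volume.real {x | x ∈ A ∧ x - v ∈ U} := by
          rw [setIntegral_const, smul_eq_mul, mul_one]; rfl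
      _ ≤ _ := ENNReal.toReal_mono hUd.ne_top hle
  have h3 : volume.real (U \ K) ≤ δ / 2 := by
    have := ENNReal.toReal_mono ENNReal.ofReal_ne_top hUd.le
    rwa [ENNReal.toReal_ofReal (by positivity)] at this
  have h4 : volume K ≤ ENNReal.ofReal (δ / 2) := by
    rw [← ENNReal.ofReal_toReal hKfin]
    refine ENNReal.ofReal_le_ofReal ?_
    change volume.real K ≤ _
    linarith
  calc volume T = volume (K ∪ (T \ K)) := by rw [union_sdiff_cancel hKT]
    _ ≤ volume K + volume (T \ K) := measure_union_le _ _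
    _ ≤ ENNReal.ofReal (δ / 2) + ENNReal.ofReal (δ / 2) := by gcongr
    _ = 0 + δ := by
        rw [← ENNReal.ofReal_add (by positivity) (by positivity), add_halves,
          ENNReal.ofReal_coe_nnreal, zero_add]

end gen

/-- the translation statement for directions with `xc v = 0` -/
theorem trans_y {b : ℕ} {Ω F : Set (PP b)} (hΩo : IsOpen Ω) (hΩc : Convex ℝ Ω)
    (hΩb : Bornology.IsBounded Ω) (hF : MeasurableSet F) (hFΩ : F ⊆ Ω)
    (h : ∀ φ : PP b → PP b, ContDiff ℝ 1 φ → HasCompactSupport φ → tsupport φ ⊆ Ω →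
      (∀ p, xc (φ p) = 0) → ∫ x in F, dv φ x = 0) {v : PP b} (hv : xc v = 0) :
    volume {x | x ∈ F ∧ x + v ∈ Ω \ F} = 0 := by
  refine trans0 hΩo hΩc hΩb hF hFΩ fun f hf hc hs => ?_
  have h1 := h (fun x => f x • v) (hf.smul contDiff_const) (hc.smul_right (f' := fun _ => v))
    ((closure_mono (Function.support_smul_subset_left f fun _ => v)).trans hs)
    (fun p => by rw [Pool.Agent.TH73.MI.xc_smul, hv, mul_zero])
  rw [← h1]
  congr 1
  ext x
  exact (Pool.Agent.TH703.Cone.TransL.dv_const_smul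
    ((hf.differentiable (by norm_num)) x)).symm

/-- **B4.** -/
theorem b4 : S_B4 := by
  intro b Ω hΩo hΩc hΩb F hF hFΩ h
  obtain ⟨e, he, hmp⟩ := Pool.Agent.TH73.MI.t_fub b
  set G : Set (ℂ × (Fin b → ℝ)) := e.symm ⁻¹' F with hG
  set W : Set (ℂ × (Fin b → ℝ)) := e.symm ⁻¹' (Ω \ F) with hW
  have hGm : MeasurableSet G := e.symm.measurable hF
  have hWm : MeasurableSet W := e.symm.measurable (hΩo.measurableSet.diff hF)
  have hmps : MeasurePreserving e.symm volume volume := hmp.symm e
  -- translations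
  have htr : ∀ k : Fin b → ℝ,
      volume {q : ℂ × (Fin b → ℝ) | q ∈ G ∧ (q.1, q.2 + k) ∈ W} = 0 := by
    intro k
    obtain ⟨v, hv⟩ := e.surjective ((0 : ℂ), k)
    rw [he v] at hv
    have hv1 : xc v = 0 := congrArg Prod.fst hv
    have hv2 : yc v = k := congrArg Prod.snd hv
    have h0 := trans_y hΩo hΩc hΩb hF hFΩ h hv1
    rw [← hmps.measure_preimage_equiv] at h0
    refine measure_mono_null ?_ h0
    rintro q ⟨hq1, hq2⟩
    refine ⟨hq1, ?_⟩
    have h3 : e.symm q + v = e.symm (q.1, q.2 + k) := by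
      apply e.injective
      rw [e.apply_symm_apply, he, Pool.Agent.TH73.MI.xc_add, hv1, add_zero]
      have h4 : e (e.symm q) = q := e.apply_symm_apply q
      rw [he] at h4
      have h5 : yc (e.symm q) = q.2 := congrArg Prod.snd h4
      have h6 : xc (e.symm q) = q.1 := congrArg Prod.fst h4
      refine Prod.ext h6 ?_
      change yc (e.symm q + v) = q.2 + k
      rw [← h5, ← hv2]
      rfl
    rw [h3]
    exact hq2
  -- all translations together
  set Z : Set ((ℂ × (Fin b → ℝ)) × (Fin b → ℝ)) :=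
    {r | r.1 ∈ G ∧ (r.1.1, r.1.2 + r.2) ∈ W} with hZ
  have hZm : MeasurableSet Z := by
    refine (measurable_fst hGm).inter ?_
    have h1 : Measurable fun r : (ℂ × (Fin b → ℝ)) × (Fin b → ℝ) => (r.1.1, r.1.2 + r.2) := by
      fun_prop
    exact h1 hWm
  have hZ0 : (volume : Measure ((ℂ × (Fin b → ℝ)) × (Fin b → ℝ))) Z = 0 := by
    rw [Measure.volume_eq_prod, Measure.prod_apply_symm hZm]
    refine (lintegral_congr (g := fun _ => 0) fun k => ?_).trans lintegral_zero
    exact htr k
  have hae : ∀ᵐ q : ℂ × (Fin b → ℝ), volume (Prod.mk q ⁻¹' Z) = 0 := by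
    rw [Measure.volume_eq_prod, Measure.measure_prod_null hZm] at hZ0
    exact hZ0
  set A : Set ℂ := {x | volume (Prod.mk x ⁻¹' W) = 0} with hA
  have hAm : MeasurableSet A :=
    (measurable_measure_prodMk_left hWm) (measurableSet_singleton (0 : ℝ≥0∞))
  refine ⟨A, hAm, ?_⟩
  have hae2 : ∀ᵐ q : ℂ × (Fin b → ℝ), q ∈ G → q.1 ∈ A := by
    filter_upwards [hae] with q hq hqG
    change volume (Prod.mk q.1 ⁻¹' W) = 0
    have h1 : Prod.mk q ⁻¹' Z = (fun k => q.2 + k) ⁻¹' (Prod.mk q.1 ⁻¹' W) := by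
      ext k
      exact ⟨fun hk => hk.2, fun hk => ⟨hqG, hk⟩⟩
    rw [h1, measure_preimage_add] at hq
    exact hq
  have hS1 : volume {q : ℂ × (Fin b → ℝ) | ¬ (q ∈ G → q.1 ∈ A)} = 0 := hae2
  have hS2 : (volume : Measure (ℂ × (Fin b → ℝ))) (W ∩ {q | q.1 ∈ A}) = 0 := by
    have hm : MeasurableSet (W ∩ {q : ℂ × (Fin b → ℝ) | q.1 ∈ A}) :=
      hWm.inter (measurable_fst hAm)
    rw [Measure.volume_eq_prod, Measure.measure_prod_null hm]
    refine Eventually.of_forall fun x => ?_
    by_cases hx : x ∈ A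
    · exact measure_mono_null (fun y hy => hy.1) hx
    · have h1 : Prod.mk x ⁻¹' (W ∩ {q : ℂ × (Fin b → ℝ) | q.1 ∈ A}) = ∅ := by
        ext y
        exact ⟨fun hy => hx hy.2, fun hy => absurd hy (notMem_empty _)⟩
      change volume (Prod.mk x ⁻¹' (W ∩ {q : ℂ × (Fin b → ℝ) | q.1 ∈ A})) = 0
      rw [h1, measure_empty]
  have hU := measure_union_null hS1 hS2
  rw [← hmp.measure_preimage_equiv] at hU
  refine measure_mono_null ?_ hU
  intro p hp
  have h4 : e.symm (e p) = p := e.symm_apply_apply p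
  have h5 : (e p).1 = xc p := by rw [he]
  rcases hp with ⟨hp1, hp2⟩ | ⟨hp1, hp2⟩
  · left
    intro h6
    apply hp2
    refine ⟨hFΩ hp1, ?_⟩
    rw [← h5]
    apply h6
    change e.symm (e p) ∈ F
    rw [h4]
    exact hp1
  · right
    refine ⟨?_, ?_⟩
    · change e.symm (e p) ∈ Ω \ F
      rw [h4]
      exact ⟨hp1.1, hp2⟩
    · change (e p).1 ∈ A
      rw [h5]
      exact hp1.2

end Pool.Agent.TH75.HU
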